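import Pool.Agent.Lib.MP_071053_nt.Construction

set_option autoImplicit false

open Finset Real

namespace Pool.Agent.Lib.MP_071053_nt

/-- The construction with the modulus of the right size. -/
theorem bound_of_primes (S : Finset ℕ) (hS : ∀ p ∈ S, p.Prime ∧ Odd p) (n : ℕ) (hn : 0 < n)
    (hQ : ((∏ p ∈ S, p : ℕ) : ℝ) ≤ n) (G : ℝ) (hG : G ^ 2 = (3 / 2 : ℝ) ^ S.card) (hG1 : 1 ≤ G)
    (hGn : G ≤ n) :
    ∃ A : Finset ℕ, (∀ k : ℕ, 1 ≤ k → k ≤ n → ∃ a ∈ A, ∃ b ∈ A, a + b = k ^ 2) ∧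
      (A.card : ℝ) ≤ 4 * n / G := by
  set Q : ℕ := ∏ p ∈ S, p with hQdef
  have hQ0 : 0 < Q := prod_pos (fun p hp => (hS p hp).1.pos)
  have hQr : (0 : ℝ) < Q := by exact_mod_cast hQ0
  have hnr : (0 : ℝ) < n := by exact_mod_cast hn
  have hG0 : 0 < G := by linarith
  set M : ℕ := ⌈n * G / Q⌉₊ with hM
  have hM0 : 0 < M := Nat.ceil_pos.mpr (by positivity)
  have hMr : (0 : ℝ) < M := by exact_mod_cast hM0
  have hM1 : n * G / Q ≤ M := Nat.le_ceil _
  have hM2 : (M : ℝ) < n * G / Q + 1 := Nat.ceil_lt_add_one (by positivity)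
  have hMQ1 : n * G ≤ M * Q := by
    rw [div_le_iff₀ hQr] at hM1; exact hM1
  have hMQ2 : M * Q ≤ 2 * (n * G) := by
    have h1 : (M : ℝ) * Q ≤ (n * G / Q + 1) * Q := by gcongr
    have h2 : (n * G / Q + 1) * Q = n * G + Q := by field_simp
    have h3 : (n : ℝ) ≤ n * G := by nlinarith
    linarith
  obtain ⟨A, hA, hcard⟩ := construction S hS M n hM0
  refine ⟨A, hA, ?_⟩
  have hcard' : (A.card : ℝ) ≤ ((M * ∏ p ∈ S, ((p + 1) / 2) + (n ^ 2 / (Q * M) + 1) : ℕ) : ℝ) := by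
    exact_mod_cast hcard
  push_cast at hcard'
  have hprod : (∏ p ∈ S, (((p + 1) / 2 : ℕ) : ℝ)) ≤ Q / G ^ 2 := by
    have h1 : ∀ p ∈ S, (((p + 1) / 2 : ℕ) : ℝ) ≤ 2 / 3 * (p : ℝ) := by
      intro p hp
      have h3 : 3 ≤ p := by
        have := (hS p hp).1.two_le
        obtain ⟨k, hk⟩ := (hS p hp).2
        omega
      have h4 : 3 * ((p + 1) / 2) ≤ 2 * p := by omega
      have h5 : (3 : ℝ) * (((p + 1) / 2 : ℕ) : ℝ) ≤ 2 * (p : ℝ) := by exact_mod_cast h4
      linarith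
    calc (∏ p ∈ S, (((p + 1) / 2 : ℕ) : ℝ)) ≤ ∏ p ∈ S, (2 / 3 * (p : ℝ)) :=
          prod_le_prod (fun p _ => by positivity) h1
      _ = (2 / 3) ^ S.card * Q := by
          rw [prod_mul_distrib, prod_const, hQdef]; push_cast; rfl
      _ = Q / G ^ 2 := by
          rw [hG]
          have : ((2 : ℝ) / 3) ^ S.card = ((3 / 2) ^ S.card)⁻¹ := by
            rw [← inv_pow]; norm_num
          rw [this]; field_simp
  have e1 : (M : ℝ) * (∏ p ∈ S, (((p + 1) / 2 : ℕ) : ℝ)) ≤ 2 * n / G := by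
    calc (M : ℝ) * (∏ p ∈ S, (((p + 1) / 2 : ℕ) : ℝ)) ≤ M * (Q / G ^ 2) := by gcongr
      _ = M * Q / G ^ 2 := by ring
      _ ≤ 2 * (n * G) / G ^ 2 := by gcongr
      _ = 2 * n / G := by field_simp
  have e2 : ((n ^ 2 / (Q * M) : ℕ) : ℝ) ≤ n / G := by
    calc ((n ^ 2 / (Q * M) : ℕ) : ℝ) ≤ ((n ^ 2 : ℕ) : ℝ) / ((Q * M : ℕ) : ℝ) := Nat.cast_div_le
      _ = (n : ℝ) ^ 2 / (M * Q) := by push_cast; ring
      _ ≤ (n : ℝ) ^ 2 / (n * G) := by gcongr
      _ = n / G := by field_simp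
  have e3 : (1 : ℝ) ≤ n / G := by rw [le_div_iff₀ hG0]; linarith
  have e4 : 4 * (n : ℝ) / G = 2 * n / G + (n / G + n / G) := by ring
  rw [e4]
  have hcard'' : (A.card : ℝ) ≤ M * (∏ p ∈ S, (((p + 1) / 2 : ℕ) : ℝ)) +
      (((n ^ 2 / (Q * M) : ℕ) : ℝ) + 1) := by
    have : (A.card : ℝ) ≤ ((M * ∏ p ∈ S, ((p + 1) / 2) + (n ^ 2 / (Q * M) + 1) : ℕ) : ℝ) := by
      exact_mod_cast hcard
    rw [Nat.cast_add, Nat.cast_mul, Nat.cast_prod, Nat.cast_add, Nat.cast_one] at this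
    exact this
  linarith

theorem exists_large {ε : ℝ} (hε : 0 < ε) : ∃ L0 : ℝ, 1 ≤ L0 ∧ ∀ L, L0 ≤ L → log L ≤ ε * L := by
  have h := Real.isLittleO_log_id_atTop.bound hε
  rw [Filter.eventually_atTop] at h
  obtain ⟨a, ha⟩ := h
  refine ⟨max a 1, le_max_right _ _, fun L hL => ?_⟩
  have h1 := ha L ((le_max_left _ _).trans hL)
  have h2 : 1 ≤ L := (le_max_right _ _).trans hL
  rw [norm_eq_abs, norm_eq_abs, id_eq, abs_of_nonneg (log_nonneg h2),
    abs_of_nonneg (by linarith : (0 : ℝ) ≤ L)] at h1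
  exact h1

/-- The number of odd primes available. -/
theorem many_primes : ∃ L0 : ℝ, 6 ≤ L0 ∧ ∀ L : ℝ, L0 ≤ L →
    0 < log L ∧ L / (10 * log L) ≤ (((Nat.primesLE ⌊L / 2⌋₊).erase 2).card : ℝ) := by
  obtain ⟨L1, hL1, h1⟩ := exists_large (ε := 1 / 100) (by norm_num)
  refine ⟨max L1 6, le_max_right _ _, fun L hL => ?_⟩
  have hL6 : 6 ≤ L := (le_max_right _ _).trans hL
  have hlog := h1 L ((le_max_left _ _).trans hL)
  have hlogpos : 0 < log L := log_pos (by linarith)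
  refine ⟨hlogpos, ?_⟩
  set y : ℕ := ⌊L / 2⌋₊ with hy
  have hy1 : (y : ℝ) ≤ L / 2 := Nat.floor_le (by linarith)
  have hy2 : L / 2 < y + 1 := Nat.lt_floor_add_one _
  have hy3 : (3 : ℝ) ≤ y := by
    have : 3 ≤ y := Nat.le_floor (by push_cast; linarith)
    exact_mod_cast this
  have hlogy : log y ≤ log L := log_le_log (by linarith) (by linarith)
  have hlogy0 : 0 < log (y : ℝ) := log_pos (by linarith)
  have hlogy1 : log ((y : ℝ) + 1) ≤ log L := log_le_log (by linarith) (by linarith)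
  have hpi := Chebyshev.pi_ge y
  have hlog2 : (0.69 : ℝ) < log 2 := by have := Real.log_two_gt_d9; linarith
  have hnum : 0.2 * L ≤ y * log 2 - log (y + 1) := by
    have h2 : L / 3 ≤ y := by linarith
    have h3 : L / 3 * 0.69 ≤ y * log 2 := by gcongr
    linarith
  have hpi2 : 0.2 * L / log L ≤ ((Nat.primeCounting y : ℕ) : ℝ) := by
    refine le_trans ?_ hpi
    rw [div_le_div_iff₀ hlogpos hlogy0]
    have h4 : (0.2 * L) * log y ≤ (0.2 * L) * log L := by gcongr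
    have h5 : (0.2 * L) * log L ≤ (y * log 2 - log (y + 1)) * log L := by gcongr
    linarith
  have hcard : (Nat.primeCounting y : ℕ) ≤ ((Nat.primesLE y).erase 2).card + 1 := by
    have h6 : (Nat.primesLE y).card = Nat.primeCounting y := by
      rw [Nat.primesLE_eq_filter_range, Nat.primeCounting, Nat.primeCounting', Nat.count_eq_card_filter_range]
    rw [← h6]
    have := Finset.pred_card_le_card_erase (s := Nat.primesLE y) (a := 2); omega
  have hcard' : ((Nat.primeCounting y : ℕ) : ℝ) ≤ (((Nat.primesLE y).erase 2).card : ℝ) + 1 := by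
    exact_mod_cast hcard
  have h7 : (1 : ℝ) ≤ L / (10 * log L) := by
    rw [le_div_iff₀ (by positivity)]
    linarith
  have h8 : 0.2 * L / log L = L / (10 * log L) + L / (10 * log L) := by
    field_simp; norm_num
  linarith

theorem main : ∃ c : ℝ, 0 < c ∧ ∃ N : ℕ, ∀ n : ℕ, N ≤ n → ∃ A : Finset ℕ,
    (∀ k : ℕ, 1 ≤ k → k ≤ n → ∃ a ∈ A, ∃ b ∈ A, a + b = k ^ 2) ∧
      (A.card : ℝ) ≤ (n : ℝ) ^ (1 - c / log (log n)) := by
  obtain ⟨L0, hL0, hprimes⟩ := many_primes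
  obtain ⟨L1, hL1, hlog⟩ := exists_large (ε := 1 / 300) (by norm_num)
  refine ⟨1 / 100, by norm_num, ⌈exp (max L0 L1)⌉₊, fun n hn => ?_⟩
  have hn1 : exp (max L0 L1) ≤ n := (Nat.le_ceil _).trans (by exact_mod_cast hn)
  have hn0 : (0 : ℝ) < n := lt_of_lt_of_le (exp_pos _) hn1
  set L := log (n : ℝ) with hL
  have hLmax : max L0 L1 ≤ L := by
    rw [hL, Real.le_log_iff_exp_le hn0]; exact hn1
  have hLL0 : L0 ≤ L := (le_max_left _ _).trans hLmax
  have hLL1 : L1 ≤ L := (le_max_right _ _).trans hLmax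
  have hL6 : 6 ≤ L := hL0.trans hLL0
  obtain ⟨hlogL, hS⟩ := hprimes L hLL0
  set y : ℕ := ⌊L / 2⌋₊ with hy
  set S := (Nat.primesLE y).erase 2 with hSdef
  have hy1 : (y : ℝ) ≤ L / 2 := Nat.floor_le (by linarith)
  have hSp : ∀ p ∈ S, p.Prime ∧ Odd p := by
    intro p hp
    rw [hSdef, mem_erase] at hp
    have h1 := Nat.prime_of_mem_primesLE hp.2
    exact ⟨h1, h1.odd_of_ne_two hp.1⟩
  have hexpL : exp L = n := exp_log hn0
  -- size of the product
  have hQ : ((∏ p ∈ S, p : ℕ) : ℝ) ≤ n := by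
    have h1 : (∏ p ∈ S, p : ℕ) ≤ 4 ^ y := by
      calc (∏ p ∈ S, p : ℕ) ≤ ∏ p ∈ Nat.primesLE y, p := by
            apply Finset.prod_le_prod_of_subset_of_one_le' (erase_subset _ _)
            intro p hp _
            exact (Nat.prime_of_mem_primesLE hp).one_le
        _ = primorial y := by rw [primorial, Nat.primesLE_eq_filter_range]
        _ ≤ 4 ^ y := primorial_le_four_pow y
    have h2 : ((∏ p ∈ S, p : ℕ) : ℝ) ≤ (4 : ℝ) ^ y := by exact_mod_cast h1
    have h3 : (4 : ℝ) ^ y ≤ exp L := by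
      have h4 : (4 : ℝ) ≤ exp 2 := by
        have := Real.add_one_le_exp (1 : ℝ)
        have h5 : exp 2 = exp 1 * exp 1 := by rw [← exp_add]; norm_num
        rw [h5]; nlinarith
      calc (4 : ℝ) ^ y ≤ (exp 2) ^ y := by gcongr
        _ = exp (y * 2) := by rw [← exp_nat_mul]
        _ ≤ exp L := exp_le_exp.mpr (by linarith)
    rw [← hexpL]; exact h2.trans h3
  -- the gain
  set s : ℝ := (S.card : ℝ) with hs
  have hlog32 : log (3 / 2 : ℝ) ≤ 1 / 2 := by
    have := Real.log_le_sub_one_of_pos (show (0 : ℝ) < 3 / 2 by norm_num); linarith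
  have hlog32' : 1 / 3 ≤ log (3 / 2 : ℝ) := by
    have := Real.one_sub_inv_le_log_of_pos (show (0 : ℝ) < 3 / 2 by norm_num)
    norm_num at this ⊢; linarith
  set G : ℝ := exp (s * log (3 / 2) / 2) with hG
  have hG2 : G ^ 2 = (3 / 2 : ℝ) ^ S.card := by
    rw [hG, ← exp_nat_mul]
    have : ((2 : ℕ) : ℝ) * (s * log (3 / 2) / 2) = S.card * log (3 / 2) := by push_cast; ring
    rw [this, exp_nat_mul, exp_log (by norm_num)]
  have hs0 : 0 ≤ s := by rw [hs]; positivity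
  have hG1 : 1 ≤ G := by
    rw [hG]; apply one_le_exp; positivity
  have hcardy : s ≤ y := by
    have h1 : S.card ≤ y := by
      calc S.card ≤ (Nat.primesLE y).card := card_le_card (erase_subset _ _)
        _ ≤ (Finset.Ioc 0 y).card := by
            rw [Nat.primesLE_eq_filter_Ioc_zero]; exact card_filter_le _ _
        _ = y := by simp
    rw [hs]; exact_mod_cast h1
  have hGn : G ≤ n := by
    rw [hG, ← hexpL]
    apply exp_le_exp.mpr
    have h1 : s * log (3 / 2) ≤ L / 2 * (1 / 2) := by gcongr; linarith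
    linarith
  obtain ⟨A, hA, hAcard⟩ := bound_of_primes S hSp n (by exact_mod_cast hn0) hQ G hG2 hG1 hGn
  refine ⟨A, hA, hAcard.trans ?_⟩
  rw [Real.rpow_def_of_pos hn0, ← hL]
  have h4 : 4 * (n : ℝ) / G = exp (log 4 + L - s * log (3 / 2) / 2) := by
    rw [hG, exp_sub, exp_add, exp_log (by norm_num : (0 : ℝ) < 4), hexpL]
  rw [h4]
  apply exp_le_exp.mpr
  have h5 : L * (1 - 1 / 100 / log L) = L - 1 / 100 * (L / log L) := by field_simp
  rw [h5]
  have h6 : L / (10 * log L) = 1 / 10 * (L / log L) := by field_simp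
  rw [h6] at hS
  have h7 : 300 ≤ L / log L := by
    rw [le_div_iff₀ hlogL]
    have := hlog L hLL1; linarith
  have h8 : (1 / 10 * (L / log L)) * (1 / 3) ≤ s * log (3 / 2) := by gcongr
  have h9 : log (4 : ℝ) ≤ 1.4 := by
    have h10 : (4 : ℝ) = 2 ^ 2 := by norm_num
    rw [h10, Real.log_pow]; have := Real.log_two_lt_d9; push_cast; linarith
  linarith

end Pool.Agent.Lib.MP_071053_nt
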