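import Mathlib

set_option autoImplicit false

open Finset

namespace Pool.Agent.Lib.MP_071053_nt

/-- the squares modulo `p` -/
def sq (p : ℕ) : Finset ℕ := (range p).image (fun x => x ^ 2 % p)

theorem card_sq {p : ℕ} (hodd : Odd p) : (sq p).card ≤ (p + 1) / 2 := by
  have hsub : sq p ⊆ (range ((p + 1) / 2)).image (fun x => x ^ 2 % p) := by
    intro r hr
    unfold sq at hr
    rw [mem_image] at hr ⊢
    obtain ⟨x, hx, rfl⟩ := hr
    rw [mem_range] at hx
    by_cases h : x < (p + 1) / 2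
    · exact ⟨x, mem_range.mpr h, rfl⟩
    · refine ⟨p - x, mem_range.mpr ?_, ?_⟩
      · obtain ⟨m, hm⟩ := hodd
        omega
      · have h1 : (p - x) ^ 2 + p * (2 * x) = x ^ 2 + p * p := by
          obtain ⟨d, hd⟩ := Nat.exists_eq_add_of_le hx.le
          have : p - x = d := by omega
          rw [this, hd]; ring
        have h2 : ((p - x) ^ 2 + p * (2 * x)) % p = (x ^ 2 + p * p) % p := by rw [h1]
        rwa [Nat.add_mul_mod_self_left, Nat.add_mul_mod_self_left] at h2
  calc (sq p).card ≤ _ := card_le_card hsub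
    _ ≤ _ := card_image_le
    _ = _ := card_range _

theorem mod_mem_sq {p : ℕ} (hp : 0 < p) (k : ℕ) : k ^ 2 % p ∈ sq p := by
  unfold sq
  rw [mem_image]
  refine ⟨k % p, mem_range.mpr (Nat.mod_lt _ hp), ?_⟩
  rw [Nat.pow_mod, Nat.mod_mod, ← Nat.pow_mod]

/-- The set `{k ^ 2 mod Q M} ∪ {Q M t}` covers the first `n` squares and is small. -/
theorem construction (S : Finset ℕ) (hS : ∀ p ∈ S, p.Prime ∧ Odd p) (M n : ℕ) (hM : 0 < M) :
    ∃ A : Finset ℕ, (∀ k : ℕ, 1 ≤ k → k ≤ n → ∃ a ∈ A, ∃ b ∈ A, a + b = k ^ 2) ∧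
      A.card ≤ M * ∏ p ∈ S, ((p + 1) / 2) + (n ^ 2 / ((∏ p ∈ S, p) * M) + 1) := by
  classical
  set Q := ∏ p ∈ S, p with hQ
  have hQ0 : 0 < Q := by
    rw [hQ]; exact prod_pos (fun p hp => (hS p hp).1.pos)
  have hR : 0 < Q * M := Nat.mul_pos hQ0 hM
  set B := (range n.succ).image (fun k => k ^ 2 % (Q * M)) with hB
  set C := (range (n ^ 2 / (Q * M) + 1)).image (fun t => Q * M * t) with hC
  refine ⟨B ∪ C, ?_, ?_⟩
  · intro k hk1 hkn
    refine ⟨k ^ 2 % (Q * M), mem_union_left _ (mem_image.mpr ⟨k, mem_range.mpr (by omega), rfl⟩),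
      Q * M * (k ^ 2 / (Q * M)), mem_union_right _ (mem_image.mpr ⟨_, ?_, rfl⟩), ?_⟩
    · rw [mem_range, Nat.lt_succ_iff]
      exact Nat.div_le_div_right (Nat.pow_le_pow_left hkn 2)
    · exact Nat.mod_add_div _ _
  · refine (card_union_le _ _).trans (Nat.add_le_add ?_ (card_image_le.trans (by rw [card_range])))
    have hinj : Set.InjOn (fun r : ℕ => ((fun (p : ℕ) (_ : p ∈ S) => r % p), r / Q))
        (B : Set ℕ) := by
      intro r hr s hs hrs
      simp only [Prod.mk.injEq] at hrs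
      obtain ⟨h1, h2⟩ := hrs
      have h3 : ∀ p ∈ S, r % p = s % p := fun p hp => congrFun (congrFun h1 p) hp
      have h4 : r ≡ s [MOD Q] := by
        have := (Nat.modEq_iff_dvd' (n := Q) (a := r) (b := s))
        rw [hQ]
        rw [Nat.modEq_iff_dvd]
        have h5 : ((∏ p ∈ S, p : ℕ) : ℤ) = ∏ p ∈ S, (p : ℤ) := by push_cast; rfl
        rw [h5]
        apply Finset.prod_dvd_of_coprime
        · intro p hp q hq hpq
          exact Nat.isCoprime_iff_coprime.mpr
            ((Nat.coprime_primes (hS p hp).1 (hS q hq).1).mpr hpq)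
        · intro p hp
          exact (Nat.modEq_iff_dvd).mp (h3 p hp)
      have h5 : r % Q = s % Q := h4
      rw [← Nat.mod_add_div r Q, ← Nat.mod_add_div s Q, h5, h2]
    calc B.card ≤ ((S.pi (fun p => sq p)) ×ˢ (range M)).card := by
          apply card_le_card_of_injOn (fun r : ℕ => ((fun (p : ℕ) (_ : p ∈ S) => r % p), r / Q))
            ?_ hinj
          intro r hr
          rw [mem_coe, hB, mem_image] at hr
          obtain ⟨k, _, rfl⟩ := hr
          rw [mem_coe, mem_product, mem_pi, mem_range]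
          refine ⟨?_, ?_⟩
          · intro p hp
            show k ^ 2 % (Q * M) % p ∈ sq p
            have hdvd : p ∣ Q * M := Dvd.dvd.mul_right (dvd_prod_of_mem _ hp) _
            rw [Nat.mod_mod_of_dvd _ hdvd]
            exact mod_mem_sq (hS p hp).1.pos k
          · show k ^ 2 % (Q * M) / Q < M
            rw [Nat.div_lt_iff_lt_mul hQ0, mul_comm M Q]
            exact Nat.mod_lt _ hR
      _ = (∏ p ∈ S, (sq p).card) * M := by rw [card_product, card_pi, card_range]
      _ ≤ (∏ p ∈ S, ((p + 1) / 2)) * M :=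
          Nat.mul_le_mul_right _ (prod_le_prod' (fun p hp => card_sq (hS p hp).2))
      _ = _ := mul_comm _ _

end Pool.Agent.Lib.MP_071053_nt
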